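import Pool.Agent.helper1.CD.Spec

/-!
# Project CD (MP_2e0e07_nt), row UPP: the upper density
-/

set_option autoImplicit false

open NumberField IsDedekindDomain Complex Pool.Agent.CH Pool.Agent.GK

namespace Pool.Agent.CD

theorem UPP_card (K L : Type) [Field K] [NumberField K] [Field L] [NumberField L] [Algebra K L] [IsGalois K L]
    (X : Set (L ≃ₐ[K] L)) : (Nat.card X : ℝ) + (Nat.card (Xᶜ : Set (L ≃ₐ[K] L)) : ℝ) = Module.finrank K L := by
  have : FiniteDimensional K L := Module.Finite.of_restrictScalars_finite ℚ K L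
  have h1 : Nat.card (L ≃ₐ[K] L) = Module.finrank K L := IsGalois.card_aut_eq_finrank K L
  have h2 := Set.ncard_add_ncard_compl X
  rw [Nat.card_coe_set_eq, Nat.card_coe_set_eq, ← h1, ← h2]
  push_cast
  ring

theorem UPP_disj (K L : Type) [Field K] [NumberField K] [Field L] [NumberField L] [Algebra K L]
    (X : Set (L ≃ₐ[K] L)) : Disjoint (Ap K L X) (⋃ σ ∈ Xᶜ, Fp K L σ) := by
  rw [Set.disjoint_left]
  intro v hv hv'
  simp only [Set.mem_iUnion] at hv'
  obtain ⟨σ, hσ, -, P, hP, hPv, hFr⟩ := hv'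
  exact hσ (hv P σ hP hPv hFr)

theorem UPP (hLOW : LOW_stmt) (hTOT : TOT_stmt) (hDSL : DSL_stmt) : UPP_stmt := by
  intro K L _ _ _ _ _ _ X ε hε
  obtain ⟨δ1, hδ1, H1⟩ := hLOW K L Xᶜ (ε / 2) (by positivity)
  obtain ⟨C, δ2, hδ2, H2⟩ := hTOT K
  have hn : (0 : ℝ) < Module.finrank K L := by
    have : FiniteDimensional K L := Module.Finite.of_restrictScalars_finite ℚ K L
    exact_mod_cast Module.finrank_pos
  have hcard := UPP_card K L X
  refine ⟨min δ1 (min δ2 (Real.exp (-(2 * |C| / ε)))), lt_min hδ1 (lt_min hδ2 (Real.exp_pos _)), fun s hs1 hs2 => ?_⟩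
  have hs3 : s < 1 + δ1 := lt_of_lt_of_le hs2 (by linarith [min_le_left δ1 (min δ2 (Real.exp (-(2 * |C| / ε))))])
  have hs4 : s < 1 + δ2 := lt_of_lt_of_le hs2 (by
    linarith [min_le_right δ1 (min δ2 (Real.exp (-(2 * |C| / ε)))), min_le_left δ2 (Real.exp (-(2 * |C| / ε)))])
  have hs5 : s - 1 < Real.exp (-(2 * |C| / ε)) := by
    linarith [min_le_right δ1 (min δ2 (Real.exp (-(2 * |C| / ε)))), min_le_right δ2 (Real.exp (-(2 * |C| / ε)))]
  have h1 := H1 s hs1 hs3
  have h2 := H2 s hs1 hs4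
  obtain ⟨-, hmono, hadd, -⟩ := hDSL K s hs1
  have h3 := hadd _ _ (UPP_disj K L X)
  have h4 := hmono (Ap K L X ∪ ⋃ σ ∈ Xᶜ, Fp K L σ) Set.univ (Set.subset_univ _)
  have h5 : Real.log (s - 1) < -(2 * |C| / ε) := by
    rw [← Real.log_exp (-(2 * |C| / ε))]
    exact Real.log_lt_log (by linarith) hs5
  have h6 : C ≤ ε / 2 * (-Real.log (s - 1)) := by
    have h7 : 2 * |C| / ε < -Real.log (s - 1) := by linarith
    have h8 : ε / 2 * (2 * |C| / ε) ≤ ε / 2 * (-Real.log (s - 1)) := mul_le_mul_of_nonneg_left h7.le (by positivity)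
    have h9 : ε / 2 * (2 * |C| / ε) = |C| := by
      field_simp
    have h10 := le_abs_self C
    linarith
  have h7 : (Nat.card X : ℝ) / Module.finrank K L = 1 - (Nat.card (Xᶜ : Set (L ≃ₐ[K] L)) : ℝ) / Module.finrank K L := by
    rw [eq_sub_iff_add_eq, ← add_div, hcard, div_self hn.ne']
  rw [h7]
  have h8 := (abs_le.1 h2).2
  nlinarith

end Pool.Agent.CD
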